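import Mathlib

set_option autoImplicit false

open Real Filter Topology

namespace Pool.Agent.Q156.Ang

/-- numerical form of the angle condition, `A = ‖x+y‖²/4`, `B = ‖x-y‖²/4` -/
def Good (ρ A B : ℝ) : Prop := |A - B| * (A + B) ^ ρ ≤ 1

theorem good_symm {ρ A B : ℝ} (h : Good ρ A B) : Good ρ B A := by
  unfold Good at *
  rwa [abs_sub_comm, add_comm B A]

theorem good_pos_aux {r ρ A B : ℝ} (hr : 0 ≤ r) (hρ : 0 ≤ ρ) (hρr : ρ ≤ r) (hB : 0 ≤ B)
    (hAB : B ≤ A) (h : 1 < A + B → A - B ≤ 1 - r * (A + B - 1)) (hA : A ≤ 1) : Good ρ A B := by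
  unfold Good
  have hu : 0 ≤ A - B := by linarith
  rw [abs_of_nonneg hu]
  rcases le_or_gt (A + B) 1 with hv | hv
  · have h1 : (A + B) ^ ρ ≤ 1 := rpow_le_one (by linarith) hv hρ
    have h2 : 0 ≤ (A + B) ^ ρ := rpow_nonneg (by linarith) _
    calc (A - B) * (A + B) ^ ρ ≤ 1 * 1 := by
          apply mul_le_mul _ h1 h2 zero_le_one
          linarith
      _ = 1 := one_mul 1
  · have h1 := h hv
    have hv0 : 0 < A + B := by linarith
    have h2 : 1 - r * (A + B - 1) ≤ (A + B) ^ (-r) := by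
      rw [rpow_def_of_pos hv0]
      have h3 := add_one_le_exp (Real.log (A + B) * -r)
      have h4 := Real.log_le_sub_one_of_pos hv0
      nlinarith
    have h3 : (A + B) ^ ρ ≤ (A + B) ^ r := rpow_le_rpow_of_exponent_le hv.le hρr
    have h4 : 0 ≤ (A + B) ^ ρ := rpow_nonneg hv0.le _
    have h5 : 0 ≤ (A + B) ^ (-r) := rpow_nonneg hv0.le _
    calc (A - B) * (A + B) ^ ρ ≤ (A + B) ^ (-r) * (A + B) ^ r := by
          apply mul_le_mul (h1.trans h2) h3 h4 h5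
      _ = 1 := by rw [← rpow_add hv0]; simp

/-- positive exponents -/
theorem good_pos {l ρ A B : ℝ} (hl0 : 0 < l) (hl : l < 1) (hρ : 0 ≤ ρ)
    (hρr : ρ ≤ (1 + l) / (1 - l)) (hA : 0 ≤ A) (hB : 0 ≤ B) (h1 : A + l * B ≤ 1)
    (h2 : l * A + B ≤ 1) : Good ρ A B := by
  have hl' : 0 < 1 - l := by linarith
  have key : ∀ a b : ℝ, 0 ≤ a → 0 ≤ b → a + l * b ≤ 1 → b ≤ a → Good ρ a b := by
    intro a b ha hb h hab
    refine good_pos_aux (r := (1 + l) / (1 - l)) (by positivity) hρ hρr hb hab (fun _ => ?_) ?_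
    · rw [div_mul_eq_mul_div, le_sub_iff_add_le, ← le_sub_iff_add_le', div_le_iff₀ hl']
      nlinarith
    · nlinarith
  rcases le_total B A with h | h
  · exact key A B hA hB h1 h
  · exact good_symm (key B A hB hA (by linarith) h)

theorem good_neg_aux {r ρ A B : ℝ} (hr : 1 ≤ r) (hρ : 0 ≤ ρ) (hρr : ρ ≤ r)
    (hAB : B ≤ A) (hB : 0 ≤ B) (hpos : 0 < A + B)
    (h : A + B < 1 → A - B ≤ 1 + r * (A + B - 1)) (hA : A ≤ 1) : Good (-ρ) A B := by
  unfold Good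
  have hu : 0 ≤ A - B := by linarith
  rw [abs_of_nonneg hu, rpow_neg hpos.le, ← div_eq_mul_inv,
    div_le_one (rpow_pos_of_pos hpos _)]
  rcases le_or_gt 1 (A + B) with hv | hv
  · have h1 : 1 ≤ (A + B) ^ ρ := one_le_rpow hv hρ
    linarith
  · have h1 := h hv
    have h2 : 1 + r * (A + B - 1) ≤ (1 + (A + B - 1)) ^ r :=
      one_add_mul_self_le_rpow_one_add (by linarith) hr
    rw [show 1 + (A + B - 1) = A + B by ring] at h2
    have h3 : (A + B) ^ r ≤ (A + B) ^ ρ := rpow_le_rpow_of_exponent_ge hpos hv.le hρr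
    linarith

/-- negative exponents; `1 ≤ A + B / l` -/
theorem good_neg {l ρ A B : ℝ} (hl0 : 0 < l) (hl : l < 1) (hρ : 0 ≤ ρ)
    (hρr : ρ ≤ (1 + l) / (1 - l)) (hA : 0 ≤ A) (hB : 0 ≤ B) (hA1 : A ≤ 1) (hB1 : B ≤ 1)
    (h1 : l ≤ l * A + B) (h2 : l ≤ A + l * B) : Good (-ρ) A B := by
  have hl' : 0 < 1 - l := by linarith
  have hr : 1 ≤ (1 + l) / (1 - l) := by rw [le_div_iff₀ hl']; linarith
  have hpos : 0 < A + B := by
    by_contra hcon
    have : A = 0 := by linarith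
    have : B = 0 := by linarith
    subst this
    nlinarith
  have key : ∀ a b : ℝ, 0 ≤ a → 0 ≤ b → a ≤ 1 → l ≤ l * a + b → 0 < a + b → b ≤ a →
      Good (-ρ) a b := by
    intro a b ha hb ha1 h hp hab
    refine good_neg_aux (r := (1 + l) / (1 - l)) hr hρ hρr hab hb hp (fun _ => ?_) ha1
    rw [div_mul_eq_mul_div, ← sub_le_iff_le_add', le_div_iff₀ hl']
    nlinarith
  rcases le_total B A with h | h
  · exact key A B hA hB hA1 h1 hpos h
  · exact good_symm (key B A hB hA hB1 (by linarith) (by linarith) h)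

/-- a first order expansion -/
theorem eventually_gt {p q ρ : ℝ} (h : p < ρ * q) :
    ∀ᶠ B in 𝓝[>] (0 : ℝ), 1 < (1 - p * B) * (1 + q * B) ^ ρ := by
  have h1 : HasDerivAt (fun B : ℝ => 1 - p * B) (-p) 0 := by
    simpa using ((hasDerivAt_id (0 : ℝ)).const_mul p).const_sub 1
  have h2 : HasDerivAt (fun B : ℝ => 1 + q * B) q 0 := by
    simpa using ((hasDerivAt_id (0 : ℝ)).const_mul q).const_add 1
  have h3 : HasDerivAt (fun B : ℝ => (1 + q * B) ^ ρ) (q * ρ) 0 := by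
    have := h2.rpow_const (p := ρ) (Or.inl (by simp))
    simpa using this
  have h4 := h1.mul h3
  have h5 : HasDerivAt (fun B : ℝ => (1 - p * B) * (1 + q * B) ^ ρ) (ρ * q - p) 0 := by
    refine h4.congr_deriv ?_
    simp
    ring
  have h6 := hasDerivAt_iff_tendsto_slope.1 h5
  have h7 : ∀ᶠ B in 𝓝[≠] (0 : ℝ), 0 < slope (fun B : ℝ => (1 - p * B) * (1 + q * B) ^ ρ) 0 B :=
    h6.eventually (lt_mem_nhds (by linarith))
  have h8 : 𝓝[>] (0 : ℝ) ≤ 𝓝[≠] 0 := nhdsWithin_mono _ fun x hx => ne_of_gt hx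
  filter_upwards [h8 h7, self_mem_nhdsWithin] with B hB hB0
  rw [slope_def_field] at hB
  simp only [mul_zero, sub_zero, add_zero, one_rpow, mul_one] at hB
  have := (div_pos_iff_of_pos_right (show (0 : ℝ) < B from hB0)).1 hB
  linarith

section cls

variable {X : Type} [NormedAddCommGroup X] [NormedSpace ℝ X]

/-- the condition for unit vectors -/
def Unit (X : Type) [NormedAddCommGroup X] [NormedSpace ℝ X] (ρ : ℝ) : Prop :=
  ∀ x y : X, ‖x‖ = 1 → ‖y‖ = 1 → Good ρ (‖x + y‖ ^ 2 / 4) (‖x - y‖ ^ 2 / 4)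

theorem ab_le {x y : X} (hx : ‖x‖ = 1) (hy : ‖y‖ = 1) :
    0 ≤ ‖x + y‖ ^ 2 / 4 ∧ ‖x + y‖ ^ 2 / 4 ≤ 1 ∧ 0 ≤ ‖x - y‖ ^ 2 / 4 ∧ ‖x - y‖ ^ 2 / 4 ≤ 1 ∧
      0 < ‖x + y‖ ^ 2 / 4 + ‖x - y‖ ^ 2 / 4 := by
  have h1 := norm_add_le x y
  have h2 := norm_sub_le x y
  have h3 := norm_nonneg (x + y)
  have h4 := norm_nonneg (x - y)
  have h5 : 2 ≤ ‖x + y‖ + ‖x - y‖ := by
    have := norm_add_le (x + y) (x - y)
    rw [show x + y + (x - y) = (2 : ℝ) • x by rw [two_smul]; abel, norm_smul, hx] at this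
    norm_num at this
    linarith
  rw [hx, hy] at h1 h2
  refine ⟨by positivity, by nlinarith, by positivity, by nlinarith, ?_⟩
  nlinarith [sq_nonneg (‖x + y‖ - ‖x - y‖), sq_nonneg (‖x + y‖ + ‖x - y‖)]

theorem unit_mono_pos {ρ σ : ℝ} (hρ : 0 ≤ ρ) (hρσ : ρ ≤ σ) (h : Unit X σ) : Unit X ρ := by
  intro x y hx hy
  have h1 := h x y hx hy
  obtain ⟨ha0, ha1, hb0, hb1, hp⟩ := ab_le hx hy
  unfold Good at *
  set A := ‖x + y‖ ^ 2 / 4
  set B := ‖x - y‖ ^ 2 / 4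
  have habs : |A - B| ≤ 1 := by rw [abs_le]; constructor <;> linarith
  rcases le_or_gt (A + B) 1 with hv | hv
  · have h2 : (A + B) ^ ρ ≤ 1 := rpow_le_one hp.le hv hρ
    calc |A - B| * (A + B) ^ ρ ≤ 1 * 1 :=
          mul_le_mul habs h2 (rpow_nonneg hp.le _) zero_le_one
      _ = 1 := one_mul 1
  · exact (mul_le_mul_of_nonneg_left (rpow_le_rpow_of_exponent_le hv.le hρσ)
      (abs_nonneg _)).trans h1

theorem unit_mono_neg {ρ σ : ℝ} (hρ : 0 ≤ ρ) (hρσ : ρ ≤ σ) (h : Unit X (-σ)) : Unit X (-ρ) := by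
  intro x y hx hy
  have h1 := h x y hx hy
  obtain ⟨ha0, ha1, hb0, hb1, hp⟩ := ab_le hx hy
  unfold Good at *
  set A := ‖x + y‖ ^ 2 / 4
  set B := ‖x - y‖ ^ 2 / 4
  have habs : |A - B| ≤ 1 := by rw [abs_le]; constructor <;> linarith
  rcases le_or_gt (A + B) 1 with hv | hv
  · exact (mul_le_mul_of_nonneg_left (rpow_le_rpow_of_exponent_ge hp hv (by linarith))
      (abs_nonneg _)).trans h1
  · have h2 : (A + B) ^ (-ρ) ≤ 1 := by
      rw [rpow_neg hp.le]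
      exact inv_le_one_of_one_le₀ (one_le_rpow hv.le hρ)
    calc |A - B| * (A + B) ^ (-ρ) ≤ 1 * 1 :=
          mul_le_mul habs h2 (rpow_nonneg hp.le _) zero_le_one
      _ = 1 := one_mul 1

end cls

end Pool.Agent.Q156.Ang
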