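import Pool.Agent.Q156.Ang.Space

set_option autoImplicit false

open Real Filter Topology

namespace Pool.Agent.Q156.Ang

variable {m : ℝ}

/-- the dual space -/
abbrev Du (m : ℝ) := W m →L[ℝ] ℝ

theorem sum_norm_le {f g : Du m} {C : ℝ}
    (h : ∀ x y : W m, ‖x‖ = 1 → ‖y‖ = 1 → f x + g y ≤ C) (hne : ∃ x : W m, ‖x‖ = 1) :
    ‖f‖ + ‖g‖ ≤ C := by
  obtain ⟨e, he⟩ := hne
  have h1 : ∀ y : W m, ‖y‖ = 1 → ‖f‖ ≤ C - g y := by
    intro y hy
    have h2 : 0 ≤ C - g y := by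
      have a := h e y he hy
      have b := h (-e) y (by rw [norm_neg]; exact he) hy
      rw [map_neg] at b
      linarith
    refine ContinuousLinearMap.opNorm_le_of_unit_norm h2 fun x hx => ?_
    have a := h x y hx hy
    have b := h (-x) y (by rw [norm_neg]; exact hx) hy
    rw [map_neg] at b
    rw [Real.norm_eq_abs, abs_le]
    constructor <;> linarith
  have h3 : ‖g‖ ≤ C - ‖f‖ := by
    have h4 : 0 ≤ C - ‖f‖ := by
      have a := h1 e he
      have b := h1 (-e) (by rw [norm_neg]; exact he)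
      rw [map_neg] at b
      linarith
    refine ContinuousLinearMap.opNorm_le_of_unit_norm h4 fun x hx => ?_
    have a := h1 x hx
    have b := h1 (-x) (by rw [norm_neg]; exact hx)
    rw [map_neg] at b
    rw [Real.norm_eq_abs, abs_le]
    constructor <;> linarith
  linarith

theorem unit_exists : ‖mk m 1 0‖ ^ 2 = max 1 (m ^ 2) := by
  rw [normsq, q1_mk, q2_mk]; norm_num

theorem exists_unit (hm0 : 0 < m) (hm : m < 1) : ∃ x : W m, ‖x‖ = 1 := by
  refine ⟨mk m 1 0, ?_⟩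
  have h := unit_exists (m := m)
  rw [max_eq_left (by nlinarith)] at h
  exact (pow_eq_one_iff_of_nonneg (norm_nonneg _) two_ne_zero).1 h

theorem smoothness (hm0 : 0 < m) (hm : m < 1) (f g : Du m) (hf : ‖f‖ = 1) (hg : ‖g‖ = 1) :
    4 * m ^ 2 ≤ m ^ 2 * ‖f + g‖ ^ 2 + ‖f - g‖ ^ 2 := by
  have hl0 : 0 < m ^ 2 := by positivity
  have key : ‖f‖ + ‖g‖ ≤ √(‖f + g‖ ^ 2 + ‖f - g‖ ^ 2 / m ^ 2) := by
    refine sum_norm_le (fun x y hx hy => ?_) (exists_unit hm0 hm)
    have h1 := convexity hm0.le hm x y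
    rw [hx, hy] at h1
    have h2 : (f + g) (x + y) ≤ ‖f + g‖ * ‖x + y‖ :=
      (le_abs_self _).trans ((f + g).le_opNorm _)
    have h3 : (f - g) (x - y) ≤ ‖f - g‖ * ‖x - y‖ :=
      (le_abs_self _).trans ((f - g).le_opNorm _)
    have h4 : (f + g) (x + y) + (f - g) (x - y) = 2 * (f x + g y) := by
      simp only [add_apply, sub_apply, map_add, map_sub]
      ring
    apply Real.le_sqrt_of_sq_le
    rcases le_total (f x + g y) 0 with h0 | h0
    · have h0' : -(f x + g y) ≤ ‖f‖ * ‖x‖ + ‖g‖ * ‖y‖ := by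
        have a : -(f x) ≤ ‖f‖ * ‖x‖ := (neg_le_abs _).trans (f.le_opNorm _)
        have b : -(g y) ≤ ‖g‖ * ‖y‖ := (neg_le_abs _).trans (g.le_opNorm _)
        linarith
      -- use the same inequality with `-x`, `-y`
      have h2' : -((f + g) (x + y)) ≤ ‖f + g‖ * ‖x + y‖ :=
        (neg_le_abs _).trans ((f + g).le_opNorm _)
      have h3' : -((f - g) (x - y)) ≤ ‖f - g‖ * ‖x - y‖ :=
        (neg_le_abs _).trans ((f - g).le_opNorm _)
      have h5 : 2 * -(f x + g y) ≤ ‖f + g‖ * ‖x + y‖ + ‖f - g‖ * ‖x - y‖ := by linarith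
      have h6 := cs (a := ‖f + g‖) (b := ‖f - g‖) (c := ‖x + y‖) (d := ‖x - y‖) hl0
      have h7 : (2 * -(f x + g y)) ^ 2 ≤ (‖f + g‖ * ‖x + y‖ + ‖f - g‖ * ‖x - y‖) ^ 2 := by
        apply pow_le_pow_left₀ (by linarith) h5
      have h8 : 0 ≤ ‖f + g‖ ^ 2 + ‖f - g‖ ^ 2 / m ^ 2 := by positivity
      nlinarith
    · have h5 : 2 * (f x + g y) ≤ ‖f + g‖ * ‖x + y‖ + ‖f - g‖ * ‖x - y‖ := by linarith
      have h6 := cs (a := ‖f + g‖) (b := ‖f - g‖) (c := ‖x + y‖) (d := ‖x - y‖) hl0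
      have h7 : (2 * (f x + g y)) ^ 2 ≤ (‖f + g‖ * ‖x + y‖ + ‖f - g‖ * ‖x - y‖) ^ 2 := by
        apply pow_le_pow_left₀ (by linarith) h5
      have h8 : 0 ≤ ‖f + g‖ ^ 2 + ‖f - g‖ ^ 2 / m ^ 2 := by positivity
      nlinarith
  rw [hf, hg] at key
  have h9 : (2 : ℝ) ^ 2 ≤ ‖f + g‖ ^ 2 + ‖f - g‖ ^ 2 / m ^ 2 := by
    have h10 : 0 ≤ ‖f + g‖ ^ 2 + ‖f - g‖ ^ 2 / m ^ 2 := by positivity
    rw [← Real.sq_sqrt h10]
    apply pow_le_pow_left₀ (by norm_num)
    linarith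
  have h11 := mul_le_mul_of_nonneg_left h9 hl0.le
  rw [mul_add, mul_div_cancel₀ _ hl0.ne'] at h11
  linarith
where
  cs {a b c d l : ℝ} (hl : 0 < l) :
      (a * c + b * d) ^ 2 ≤ (a ^ 2 + b ^ 2 / l) * (c ^ 2 + l * d ^ 2) := by
    have h : (a ^ 2 + b ^ 2 / l) * (c ^ 2 + l * d ^ 2) - (a * c + b * d) ^ 2 =
        (a * d * l - b * c) ^ 2 / l := by
      field_simp
      ring
    have h2 : 0 ≤ (a * d * l - b * c) ^ 2 / l := by positivity
    linarith

theorem unit_Du (hm0 : 0 < m) (hm : m < 1) {ρ : ℝ} (hρ : 0 ≤ ρ)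
    (hρr : ρ ≤ (1 + m ^ 2) / (1 - m ^ 2)) : Unit (Du m) (-ρ) := by
  intro f g hf hg
  have h1 := smoothness hm0 hm f g hf hg
  have h2 := smoothness hm0 hm f (-g) hf ((norm_neg g).trans hg)
  rw [show f - -g = f + g from sub_neg_eq_add f g,
    show f + -g = f - g from (sub_eq_add_neg f g).symm] at h2
  obtain ⟨a0, a1, b0, b1, -⟩ := ab_le hf hg
  refine good_neg (l := m ^ 2) (by positivity) (by nlinarith) hρ hρr a0 b0 a1 b1 ?_ ?_ <;> linarith

/-- the functional `x ↦ a x.1.re + b x.2.im` -/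
noncomputable def fn (m a b : ℝ) : Du m :=
  a • (Complex.reCLM.comp ((ContinuousLinearMap.fst ℝ ℂ ℂ).comp (W m).subtypeL)) +
    b • (Complex.imCLM.comp ((ContinuousLinearMap.snd ℝ ℂ ℂ).comp (W m).subtypeL))

theorem fn_apply (a b : ℝ) (x : W m) : fn m a b x = a * x.1.1.re + b * x.1.2.im := rfl

theorem fn_add (a b c d : ℝ) : fn m a b + fn m c d = fn m (a + c) (b + d) := by
  ext x; simp only [add_apply, fn_apply]; ring

theorem fn_sub (a b c d : ℝ) : fn m a b - fn m c d = fn m (a - c) (b - d) := by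
  ext x; simp only [sub_apply, fn_apply]; ring

theorem fn_le (hm0 : 0 < m) {a b C : ℝ} (hC : 0 ≤ C)
    (h : a ^ 2 + b ^ 2 / m ^ 2 ≤ C ^ 2 ∨ a ^ 2 / m ^ 2 + b ^ 2 ≤ C ^ 2) : ‖fn m a b‖ ≤ C := by
  refine ContinuousLinearMap.opNorm_le_bound _ hC fun x => ?_
  rw [fn_apply, Real.norm_eq_abs]
  apply abs_le_of_sq_le_sq _ (by positivity)
  have hl0 : 0 < m ^ 2 := by positivity
  have hx1 : q1 x ≤ ‖x‖ ^ 2 := by rw [normsq]; exact le_max_left _ _
  have hx2 : q2 x ≤ ‖x‖ ^ 2 := by rw [normsq]; exact le_max_right _ _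
  rw [q1_eq] at hx1
  rw [q2_eq] at hx2
  rw [mul_pow]
  rcases h with h | h
  · have h1 := smoothness.cs (a := a) (b := b) (c := x.1.1.re) (d := x.1.2.im) hl0
    exact h1.trans (mul_le_mul h hx1 (by positivity) (by positivity))
  · have h1 := smoothness.cs (a := b) (b := a) (c := x.1.2.im) (d := x.1.1.re) hl0
    have h2 : (b ^ 2 + a ^ 2 / m ^ 2) * (x.1.2.im ^ 2 + m ^ 2 * x.1.1.re ^ 2) ≤
        C ^ 2 * ‖x‖ ^ 2 := mul_le_mul (by linarith) (by linarith) (by positivity) (by positivity)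
    calc (a * x.1.1.re + b * x.1.2.im) ^ 2 = (b * x.1.2.im + a * x.1.1.re) ^ 2 := by ring
      _ ≤ _ := h1.trans h2

theorem le_fn {a b c d C : ℝ} (hm : ‖mk m c d‖ = 1) (h : C = a * c + b * d) :
    C ≤ ‖fn m a b‖ := by
  have h1 := (le_abs_self _).trans ((fn m a b).le_opNorm (mk m c d))
  rw [hm, mul_one, fn_apply] at h1
  rw [h]
  exact h1

theorem norm_mk10 (hm0 : 0 < m) (hm : m < 1) : ‖mk m 1 0‖ = 1 := by
  have h := unit_exists (m := m)
  rw [max_eq_left (by nlinarith)] at h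
  exact (pow_eq_one_iff_of_nonneg (norm_nonneg _) two_ne_zero).1 h

theorem norm_mk01 (hm0 : 0 < m) (hm : m < 1) : ‖mk m 0 1‖ = 1 := by
  have h : ‖mk m 0 1‖ ^ 2 = 1 := by
    rw [normsq, q1_mk, q2_mk, max_eq_right (by nlinarith)]
    norm_num
  exact (pow_eq_one_iff_of_nonneg (norm_nonneg _) two_ne_zero).1 h

theorem not_unit_Du (hm0 : 0 < m) (hm : m < 1) {ρ : ℝ}
    (hρr : (1 + m ^ 2) / (1 - m ^ 2) < ρ) : ¬ Unit (Du m) (-ρ) := by
  intro H
  obtain ⟨l, hldef⟩ : ∃ l, l = m ^ 2 := ⟨_, rfl⟩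
  rw [← hldef] at hρr
  have hl0 : 0 < l := by rw [hldef]; positivity
  have hl1 : l < 1 := by rw [hldef]; nlinarith
  have hl : 0 < 1 - l := by linarith
  have hr : (1 + l) < ρ * (1 - l) := (div_lt_iff₀ hl).1 hρr
  have hr' : (1 + l) / l < -ρ * (-((1 - l) / l)) := by
    rw [neg_mul_neg, mul_div_assoc', div_lt_div_iff_of_pos_right hl0]
    exact hr
  have h1 := eventually_gt hr'
  have h2 : ∀ᶠ B in 𝓝[>] (0 : ℝ), B < l ^ 2 / 2 :=
    nhdsWithin_le_nhds (Iio_mem_nhds (by positivity))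
  obtain ⟨B, h3, h4, h5⟩ := (h1.and (h2.and self_mem_nhdsWithin)).exists
  have hB : 0 < B := h5
  obtain ⟨A, hA⟩ : ∃ A, A = 1 - B / l := ⟨_, rfl⟩
  have hBl : B / l < 1 / 2 := by
    rw [div_lt_iff₀ hl0]; nlinarith
  have hBl2 : B / l ^ 2 < 1 / 2 := by
    rw [div_lt_iff₀ (by positivity)]; linarith
  have hA0 : 0 < A := by rw [hA]; linarith
  have hAs : √A ^ 2 = A := sq_sqrt hA0.le
  have hBs : √B ^ 2 = B := sq_sqrt hB.le
  have hun : ∀ b : ℝ, b ^ 2 = B → ‖fn m (√A) b‖ = 1 := by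
    intro b hb
    apply le_antisymm
    · apply fn_le hm0 zero_le_one
      left
      rw [hAs, hb, ← hldef, hA]; norm_num
    · apply le_fn (c := √A) (d := b / l)
      · have : ‖mk m (√A) (b / l)‖ ^ 2 = 1 := by
          rw [normsq, q1_mk, q2_mk, div_pow, hAs, hb, ← hldef, max_eq_left]
          · rw [hA]; field_simp; ring
          · have e : l * (B / l ^ 2) = B / l := by field_simp
            rw [e, hA]
            have e2 : B / l = l * (B / l ^ 2) := e.symm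
            have e3 : 0 ≤ (1 - l) * (1 - (1 + l) * (B / l ^ 2)) := by
              apply mul_nonneg hl.le
              have : 0 ≤ B / l ^ 2 := by positivity
              nlinarith
            have e4 : l * (B / l) = l ^ 2 * (B / l ^ 2) := by rw [e2]; ring
            nlinarith
        exact (pow_eq_one_iff_of_nonneg (norm_nonneg _) two_ne_zero).1 this
      · have : √A * √A + b * (b / l) = √A ^ 2 + b ^ 2 / l := by ring
        rw [this, hAs, hb, hA]; ring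
  have hf := hun (√B) hBs
  have hg := hun (-√B) (by rw [neg_sq, hBs])
  have h6 := H _ _ hf hg
  rw [fn_add, fn_sub] at h6
  have e1 : ‖fn m (√A + √A) (√B + -√B)‖ = 2 * √A := by
    rw [show √B + -√B = 0 by ring, show √A + √A = 2 * √A by ring]
    apply le_antisymm
    · apply fn_le hm0 (by positivity)
      left; norm_num
    · exact le_fn (norm_mk10 hm0 hm) (by ring)
  have e2 : ‖fn m (√A - √A) (√B - -√B)‖ = 2 * √B := by
    rw [show √A - √A = 0 by ring, show √B - -√B = 2 * √B by ring]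
    apply le_antisymm
    · apply fn_le hm0 (by positivity)
      right; norm_num
    · exact le_fn (norm_mk01 hm0 hm) (by ring)
  rw [e1, e2] at h6
  unfold Good at h6
  have e3 : (2 * √A) ^ 2 / 4 - (2 * √B) ^ 2 / 4 = 1 - (1 + l) / l * B := by
    rw [mul_pow, mul_pow, hAs, hBs, hA]; field_simp; ring
  have e4 : (2 * √A) ^ 2 / 4 + (2 * √B) ^ 2 / 4 = 1 + -((1 - l) / l) * B := by
    rw [mul_pow, mul_pow, hAs, hBs, hA]; field_simp; ring
  rw [e3, e4] at h6
  have h7 := le_abs_self (1 - (1 + l) / l * B)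
  have hv : 0 < 1 + -((1 - l) / l) * B := by
    rw [← e4, mul_pow, mul_pow, hAs, hBs]; positivity
  have h9 := mul_le_mul_of_nonneg_right h7 (rpow_nonneg hv.le (-ρ))
  linarith

end Pool.Agent.Q156.Ang
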