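import Pool.Agent.Q156.Ang.Basic

set_option autoImplicit false

open Real Filter Topology

namespace Pool.Agent.Q156.Ang

/-- The plane with the norm `max (√(a² + m² b²), √(m² a² + b²))`, as a subspace of `ℂ × ℂ`. -/
def W (m : ℝ) : Submodule ℝ (ℂ × ℂ) where
  carrier := {p | p.2.re = m * p.1.re ∧ p.1.im = m * p.2.im}
  add_mem' := by
    rintro p q ⟨h1, h2⟩ ⟨h3, h4⟩
    constructor
    · simp [h1, h3]; ring
    · simp [h2, h4]; ring
  zero_mem' := by simp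
  smul_mem' := by
    rintro c p ⟨h1, h2⟩
    constructor
    · simp [h1]; ring
    · simp [h2]; ring

variable {m : ℝ}

def mk (m a b : ℝ) : W m := ⟨(⟨a, m * b⟩, ⟨m * a, b⟩), by constructor <;> rfl⟩

/-- first and second quadratic forms -/
noncomputable def q1 (p : W m) : ℝ := ‖p.1.1‖ ^ 2
noncomputable def q2 (p : W m) : ℝ := ‖p.1.2‖ ^ 2

theorem q1_eq (p : W m) : q1 p = p.1.1.re ^ 2 + m ^ 2 * p.1.2.im ^ 2 := by
  unfold q1
  rw [← Complex.normSq_eq_norm_sq, Complex.normSq_apply, p.2.2]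
  ring

theorem q2_eq (p : W m) : q2 p = m ^ 2 * p.1.1.re ^ 2 + p.1.2.im ^ 2 := by
  unfold q2
  rw [← Complex.normSq_eq_norm_sq, Complex.normSq_apply, p.2.1]
  ring

theorem q1_mk (a b : ℝ) : q1 (mk m a b) = a ^ 2 + m ^ 2 * b ^ 2 := by rw [q1_eq]; rfl
theorem q2_mk (a b : ℝ) : q2 (mk m a b) = m ^ 2 * a ^ 2 + b ^ 2 := by rw [q2_eq]; rfl

theorem normsq (p : W m) : ‖p‖ ^ 2 = max (q1 p) (q2 p) := by
  change ‖(p : ℂ × ℂ)‖ ^ 2 = _
  rw [Prod.norm_def]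
  unfold q1 q2
  rcases le_total ‖p.1.1‖ ‖p.1.2‖ with h | h
  · rw [max_eq_right h, max_eq_right]
    gcongr
  · rw [max_eq_left h, max_eq_left]
    gcongr

theorem mk_add (a b c d : ℝ) : mk m a b + mk m c d = mk m (a + c) (b + d) := by
  apply Subtype.ext
  apply Prod.ext
  · apply Complex.ext <;> simp [mk]; ring
  · apply Complex.ext <;> simp [mk]; ring

theorem mk_sub (a b c d : ℝ) : mk m a b - mk m c d = mk m (a - c) (b - d) := by
  apply Subtype.ext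
  apply Prod.ext
  · apply Complex.ext <;> simp [mk]; ring
  · apply Complex.ext <;> simp [mk]; ring

theorem par1 (x y : W m) : q1 (x + y) + q1 (x - y) = 2 * (q1 x + q1 y) := by
  simp only [q1_eq]
  have e1 : (x + y).1.1.re = x.1.1.re + y.1.1.re := by simp
  have e2 : (x + y).1.2.im = x.1.2.im + y.1.2.im := by simp
  have e3 : (x - y).1.1.re = x.1.1.re - y.1.1.re := by simp
  have e4 : (x - y).1.2.im = x.1.2.im - y.1.2.im := by simp
  rw [e1, e2, e3, e4]; ring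

theorem par2 (x y : W m) : q2 (x + y) + q2 (x - y) = 2 * (q2 x + q2 y) := by
  simp only [q2_eq]
  have e1 : (x + y).1.1.re = x.1.1.re + y.1.1.re := by simp
  have e2 : (x + y).1.2.im = x.1.2.im + y.1.2.im := by simp
  have e3 : (x - y).1.1.re = x.1.1.re - y.1.1.re := by simp
  have e4 : (x - y).1.2.im = x.1.2.im - y.1.2.im := by simp
  rw [e1, e2, e3, e4]; ring

theorem q_nonneg (p : W m) : 0 ≤ q1 p ∧ 0 ≤ q2 p := ⟨sq_nonneg _, sq_nonneg _⟩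

theorem q12 (hm0 : 0 ≤ m) (hm : m < 1) (p : W m) :
    m ^ 2 * q2 p ≤ q1 p ∧ m ^ 2 * q1 p ≤ q2 p := by
  have h1 : m ^ 2 ≤ 1 := by nlinarith
  have h2 : m ^ 2 * m ^ 2 ≤ 1 := by nlinarith [sq_nonneg m]
  rw [q1_eq, q2_eq]
  constructor
  · nlinarith [mul_le_mul_of_nonneg_right h2 (sq_nonneg p.1.1.re)]
  · nlinarith [mul_le_mul_of_nonneg_right h2 (sq_nonneg p.1.2.im)]

/-- uniform convexity -/
theorem convexity (hm0 : 0 ≤ m) (hm : m < 1) (x y : W m) :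
    ‖x + y‖ ^ 2 + m ^ 2 * ‖x - y‖ ^ 2 ≤ 2 * (‖x‖ ^ 2 + ‖y‖ ^ 2) := by
  have h1 : m ^ 2 ≤ 1 := by nlinarith
  have hx1 : q1 x ≤ ‖x‖ ^ 2 := by rw [normsq]; exact le_max_left _ _
  have hx2 : q2 x ≤ ‖x‖ ^ 2 := by rw [normsq]; exact le_max_right _ _
  have hy1 : q1 y ≤ ‖y‖ ^ 2 := by rw [normsq]; exact le_max_left _ _
  have hy2 : q2 y ≤ ‖y‖ ^ 2 := by rw [normsq]; exact le_max_right _ _
  have p1 := par1 x y
  have p2 := par2 x y
  obtain ⟨a1, a2⟩ := q12 hm0 hm (x - y)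
  obtain ⟨n1, n2⟩ := q_nonneg (x - y)
  have b1 : m ^ 2 * q1 (x - y) ≤ q1 (x - y) := by nlinarith
  have b2 : m ^ 2 * q2 (x - y) ≤ q2 (x - y) := by nlinarith
  have c : ‖x - y‖ ^ 2 = q1 (x - y) ∨ ‖x - y‖ ^ 2 = q2 (x - y) := by
    rw [normsq]; exact max_choice _ _
  have d : ‖x + y‖ ^ 2 = q1 (x + y) ∨ ‖x + y‖ ^ 2 = q2 (x + y) := by
    rw [normsq]; exact max_choice _ _
  rcases c with c | c <;> rcases d with d | d <;> rw [c, d] <;> linarith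

theorem unit_W (hm0 : 0 < m) (hm : m < 1) {ρ : ℝ} (hρ : 0 ≤ ρ)
    (hρr : ρ ≤ (1 + m ^ 2) / (1 - m ^ 2)) : Unit (W m) ρ := by
  intro x y hx hy
  have h1 := convexity hm0.le hm x y
  have h2 := convexity hm0.le hm x (-y)
  rw [sub_neg_eq_add, ← sub_eq_add_neg, norm_neg] at h2
  rw [hx, hy] at h1 h2
  refine good_pos (l := m ^ 2) (by positivity) (by nlinarith) hρ hρr (by positivity)
    (by positivity) ?_ ?_ <;> linarith

theorem not_unit_W (hm0 : 0 < m) (hm : m < 1) {ρ : ℝ}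
    (hρr : (1 + m ^ 2) / (1 - m ^ 2) < ρ) : ¬ Unit (W m) ρ := by
  intro H
  have hl : 0 < 1 - m ^ 2 := by nlinarith
  have hl0 : 0 < m ^ 2 := by positivity
  have hr : (1 + m ^ 2) < ρ * (1 - m ^ 2) := (div_lt_iff₀ hl).1 hρr
  have h1 := eventually_gt hr
  have h2 : ∀ᶠ B in 𝓝[>] (0 : ℝ), B < 1 / 2 :=
    nhdsWithin_le_nhds (Iio_mem_nhds (by norm_num))
  obtain ⟨B, h3, h4, h5⟩ := (h1.and (h2.and self_mem_nhdsWithin)).exists
  have hB : 0 < B := h5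
  set A := 1 - m ^ 2 * B with hA
  have hA0 : 0 < A := by rw [hA]; nlinarith
  have hAs : √A ^ 2 = A := sq_sqrt hA0.le
  have hBs : √B ^ 2 = B := sq_sqrt hB.le
  have hunit : ∀ b : ℝ, b ^ 2 = B → ‖mk m (√A) b‖ = 1 := by
    intro b hb
    have : ‖mk m (√A) b‖ ^ 2 = 1 := by
      have hlB : 0 ≤ (1 - m ^ 2) * (1 - (1 + m ^ 2) * B) := by
        apply mul_nonneg hl.le
        nlinarith
      rw [normsq, q1_mk, q2_mk, hAs, hb, max_eq_left]
      · rw [hA]; ring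
      · rw [hA]; linarith
    have h0 := norm_nonneg (mk m (√A) b)
    nlinarith
  have hx := hunit (√B) hBs
  have hy := hunit (-√B) (by rw [neg_sq, hBs])
  have h6 := H _ _ hx hy
  rw [mk_add, mk_sub, normsq, normsq, q1_mk, q2_mk, q1_mk, q2_mk] at h6
  have e1 : max ((√A + √A) ^ 2 + m ^ 2 * (√B + -√B) ^ 2)
      (m ^ 2 * (√A + √A) ^ 2 + (√B + -√B) ^ 2) = 4 * A := by
    rw [show (√A + √A) ^ 2 = 4 * A by rw [show (√A + √A) ^ 2 = 4 * √A ^ 2 by ring, hAs], show (√B + -√B) ^ 2 = 0 by ring,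
      max_eq_left]
    · ring
    · nlinarith
  have e2 : max ((√A - √A) ^ 2 + m ^ 2 * (√B - -√B) ^ 2)
      (m ^ 2 * (√A - √A) ^ 2 + (√B - -√B) ^ 2) = 4 * B := by
    rw [show (√A - √A) ^ 2 = 0 by ring, show (√B - -√B) ^ 2 = 4 * B by
      rw [show (√B - -√B) ^ 2 = 4 * √B ^ 2 by ring, hBs],
      max_eq_right]
    · ring
    · nlinarith
  rw [e1, e2] at h6
  unfold Good at h6
  have e3 : 4 * A / 4 - 4 * B / 4 = 1 - (1 + m ^ 2) * B := by rw [hA]; ring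
  have e4 : 4 * A / 4 + 4 * B / 4 = 1 + (1 - m ^ 2) * B := by rw [hA]; ring
  rw [e3, e4] at h6
  have h7 := le_abs_self (1 - (1 + m ^ 2) * B)
  have h8 : 0 ≤ (1 + (1 - m ^ 2) * B) ^ ρ := rpow_nonneg (by positivity) _
  have h9 := mul_le_mul_of_nonneg_right h7 h8
  linarith

theorem corner_alg {l c h η : ℝ} (hl0 : 0 < l) (hl1 : l < 1) (hcl : (1 + l) * c = 1)
    (hh : 0 < h) (h4 : h < η / 8) :
    1 - ((1 - l) * (1 + l) + η) * h ≤ (1 + l) ^ 2 * ((c + l * h) * (c - h)) := by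
  have e6 : (1 + l) ^ 2 * ((c + l * h) * (c - h)) =
      1 - (1 - l) * (1 + l) * h - l * (1 + l) ^ 2 * h ^ 2 := by
    have : (1 + l) ^ 2 * ((c + l * h) * (c - h)) =
        ((1 + l) * c) ^ 2 - ((1 + l) * c) * ((1 + l) * (1 - l) * h) - l * (1 + l) ^ 2 * h ^ 2 := by
      ring
    rw [this, hcl]; ring
  rw [e6]
  have h1 : l * (1 + l) ^ 2 ≤ 4 := by nlinarith [sq_nonneg l, mul_pos hl0 hl0]
  have h2 : l * (1 + l) ^ 2 * h ^ 2 ≤ 4 * h ^ 2 := by gcongr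
  have h3 : 4 * h ^ 2 ≤ η * h := by nlinarith
  linarith

theorem corner_norms {l c h : ℝ} (hm0 : 0 < m) (hm : m < 1) (hl : l = m ^ 2)
    (hcl : (1 + l) * c = 1) (hh : 0 < h) {p q : ℝ} (hp0 : 0 < p) (hq0 : 0 < q)
    (hp2 : p ^ 2 = c + l * h) (hq2 : q ^ 2 = c - h) :
    ‖mk m p q‖ = 1 ∧ ‖mk m q p‖ = 1 ∧ ‖mk m p q + mk m q p‖ ^ 2 = (1 + l) * (p + q) ^ 2 ∧
      ‖mk m p q - mk m q p‖ ^ 2 = (1 + l) * (p - q) ^ 2 := by
  have hl0 : 0 < l := by rw [hl]; positivity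
  have hl1 : l < 1 := by rw [hl]; nlinarith
  have hdiff : 0 ≤ (1 - l) * ((1 + l) * h) := by
    apply mul_nonneg (by linarith); positivity
  refine ⟨?_, ?_, ?_, ?_⟩
  · have : ‖mk m p q‖ ^ 2 = 1 := by
      rw [normsq, q1_mk, q2_mk, hp2, hq2, ← hl, max_eq_left]
      · linarith
      · linarith
    have h0 := norm_nonneg (mk m p q)
    exact (pow_eq_one_iff_of_nonneg h0 two_ne_zero).1 this
  · have : ‖mk m q p‖ ^ 2 = 1 := by
      rw [normsq, q1_mk, q2_mk, hp2, hq2, ← hl, max_eq_right]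
      · linarith
      · linarith
    have h0 := norm_nonneg (mk m q p)
    exact (pow_eq_one_iff_of_nonneg h0 two_ne_zero).1 this
  · rw [mk_add, normsq, q1_mk, q2_mk, ← hl, show (q + p) ^ 2 = (p + q) ^ 2 by ring,
      max_eq_left (le_of_eq (by ring))]
    ring
  · rw [mk_sub, normsq, q1_mk, q2_mk, ← hl, show (q - p) ^ 2 = (p - q) ^ 2 by ring,
      max_eq_left (le_of_eq (by ring))]
    ring

theorem corner (hm0 : 0 < m) (hm : m < 1) {γ : ℝ} (hγ : 1 < γ) : ¬ Unit (W m) (-γ) := by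
  intro H
  obtain ⟨l, hldef⟩ : ∃ l, l = m ^ 2 := ⟨_, rfl⟩
  have hl0 : 0 < l := by rw [hldef]; positivity
  have hl1 : l < 1 := by rw [hldef]; nlinarith
  obtain ⟨K, hK⟩ : ∃ K, K = (1 - l) * (1 + l) := ⟨_, rfl⟩
  have hK0 : 0 < K := by rw [hK]; exact mul_pos (by linarith) (by linarith)
  have hK1 : K ≤ 1 := by rw [hK]; nlinarith [sq_nonneg l]
  obtain ⟨η, hη⟩ : ∃ η, η = (γ - 1) * K / 2 := ⟨_, rfl⟩
  have hη0 : 0 < η := by
    rw [hη]; exact div_pos (mul_pos (by linarith) hK0) two_pos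
  have hr : K + η < -(2 * γ) * (-(K / 2)) := by
    have : -(2 * γ) * (-(K / 2)) = K + 2 * η := by rw [hη]; ring
    rw [this]; linarith
  have h1 := eventually_gt hr
  have h2 : ∀ᶠ B in 𝓝[>] (0 : ℝ), B < 1 / 4 :=
    nhdsWithin_le_nhds (Iio_mem_nhds (by norm_num))
  have h2' : ∀ᶠ B in 𝓝[>] (0 : ℝ), B < η / 8 :=
    nhdsWithin_le_nhds (Iio_mem_nhds (by positivity))
  obtain ⟨h, h3, h4, h4', h5⟩ := (h1.and (h2.and (h2'.and self_mem_nhdsWithin))).exists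
  have hh : 0 < h := h5
  obtain ⟨c, hcdef⟩ : ∃ c, c = 1 / (1 + l) := ⟨_, rfl⟩
  have hc : 1 / 2 < c := by
    rw [hcdef]
    apply one_div_lt_one_div_of_lt <;> linarith
  have hcl : (1 + l) * c = 1 := by rw [hcdef]; field_simp
  have hP : 0 < c + l * h := by positivity
  have hQ : 0 < c - h := by linarith
  obtain ⟨p, hp⟩ : ∃ p, p = √(c + l * h) := ⟨_, rfl⟩
  obtain ⟨q, hq⟩ : ∃ q, q = √(c - h) := ⟨_, rfl⟩
  have hp2 : p ^ 2 = c + l * h := by rw [hp]; exact sq_sqrt hP.le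
  have hq2 : q ^ 2 = c - h := by rw [hq]; exact sq_sqrt hQ.le
  have hp0 : 0 < p := by rw [hp]; exact sqrt_pos.2 hP
  have hq0 : 0 < q := by rw [hq]; exact sqrt_pos.2 hQ
  obtain ⟨hu1, hu2, e1, e2⟩ := corner_norms hm0 hm hldef hcl hh hp0 hq0 hp2 hq2
  have h6 := H _ _ hu1 hu2
  rw [e1, e2] at h6
  unfold Good at h6
  have e3 : (1 + l) * (p + q) ^ 2 / 4 - (1 + l) * (p - q) ^ 2 / 4 = (1 + l) * (p * q) := by ring
  have e4 : (1 + l) * (p + q) ^ 2 / 4 + (1 + l) * (p - q) ^ 2 / 4 = 1 + -(K / 2) * h := by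
    have : (1 + l) * (p + q) ^ 2 / 4 + (1 + l) * (p - q) ^ 2 / 4 =
      (1 + l) * (p ^ 2 + q ^ 2) / 2 := by ring
    rw [this, hp2, hq2, hK]
    linear_combination hcl
  have hpq : 0 ≤ (1 + l) * (p * q) := by positivity
  rw [e3, e4, abs_of_nonneg hpq] at h6
  have hv : 0 < 1 + -(K / 2) * h := by nlinarith
  have h7 : (1 - (K + η) * h) ≤ ((1 + l) * (p * q)) ^ 2 := by
    have e5 : ((1 + l) * (p * q)) ^ 2 = (1 + l) ^ 2 * (p ^ 2 * q ^ 2) := by ring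
    rw [e5, hp2, hq2, hK]
    exact corner_alg hl0 hl1 hcl hh h4'
  have e8 : (1 + -(K / 2) * h) ^ (-(2 * γ)) = ((1 + -(K / 2) * h) ^ (-γ)) ^ 2 := by
    rw [← rpow_natCast ((1 + -(K / 2) * h) ^ (-γ)) 2, ← rpow_mul hv.le]
    congr 1
    push_cast; ring
  rw [e8] at h3
  have h8 : 1 < ((1 + l) * (p * q) * (1 + -(K / 2) * h) ^ (-γ)) ^ 2 := by
    rw [mul_pow]
    exact lt_of_lt_of_le h3 (mul_le_mul_of_nonneg_right h7 (sq_nonneg _))
  have h9 : 0 ≤ (1 + l) * (p * q) * (1 + -(K / 2) * h) ^ (-γ) :=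
    mul_nonneg hpq (rpow_nonneg hv.le _)
  exact absurd (pow_le_one₀ h9 h6) (not_le.2 h8)

end Pool.Agent.Q156.Ang
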